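import Pool.Agent.L0h17.WT.Stm
import Pool.Agent.L0h47.RW.HB
import Pool.Agent.L0h47.RW.TT

/-!
# Board WT, module CEN: the periods of a weighted centre at the origin
(after `L0h21/SN/Root2`, `L0h47/RW/HB1`, `HB2`, `HB`, `TT` and `L0h21/RW/P10`)
-/

set_option autoImplicit false
set_option linter.unusedSectionVars false

namespace Pool.Agent.L0h92.WT

open MvPolynomial Pool.Agent.H628R4.TP
open Pool.Agent.L0h21.SN Pool.Agent.L0h21.RW Pool.Agent.L0h47.RW
open Pool.Agent.L0h17.WT (PerH S_CEN)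

section core
variable {σ J K : Type} [Fintype σ] [DecidableEq σ] [Fintype J] [DecidableEq J] [Field K]
  [CharZero K] [IsAlgClosed K] [Algebra ℂ K]

/-- The equation which follows from the functional equation at `s₀ = -|w| / d` is not solvable. -/
theorem root_coreB (w : σ → ℕ) (P : σ → K) (f : J → MvPolynomial σ ℂ) (e : J → ℕ)
    (hhom : ∀ j, IsWeightedHomogeneous w (f j) (e j)) (m : J → ℕ) (hm : ∀ j, 0 < m j)
    (c : ℂ) (hc : c ≠ 0) (hd : 0 < ∑ j, m j * e j) (hcard : 2 ≤ Fintype.card (Pos w))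
    (hne : ∀ j, e j = 0 → aeval P (f j) ≠ 0)
    (hsnc : ∀ x : Pos w → K, x ≠ 0 → SNCAt (fun j : {j // 0 < e j} => sp w P (f j.1)) x)
    (hdep : ∃ l : {j // 0 < e j} → K, l ≠ 0 ∧
      ∀ v, ∑ i, l i * constantCoeff (pderiv v (sp w P (f i.1))) = 0)
    (β : MvPolynomial σ ℂ) (hβ : IsWeightedHomogeneous w β 0) (s₀' : ℂ) (hs₀' : s₀' = -((∑ v, w v : ℕ) : ℂ) / (∑ j, m j * e j : ℕ))
    (hfe : ∃ (k : ℕ) (g : σ → MvPolynomial σ ℂ), (∀ v, w v = 0 → g v = 0) ∧
      β * (C c * ∏ j, f j ^ m j) ^ (k + 1) = (C c * ∏ j, f j ^ m j) * dvg g +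
        C (s₀' - k) * act g (C c * ∏ j, f j ^ m j)) :
    aeval P β = 0 := by
  set W : ℕ := ∑ v, w v with hW
  set d : ℕ := ∑ j, m j * e j with hdd
  set s₀ : ℂ := -(W : ℂ) / d with hs₀
  have hd' : (d : ℂ) ≠ 0 := by exact_mod_cast hd.ne'
  have hWpos : 0 < W := by
    have h1 : 0 < Fintype.card (Pos w) := by omega
    obtain ⟨v⟩ := Fintype.card_pos_iff.mp h1
    exact lt_of_lt_of_le v.2 (Finset.single_le_sum (fun _ _ => Nat.zero_le _) (Finset.mem_univ v.1))
  -- the logarithmic structure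
  let w' : Pos w → ℕ := fun v => w v.1
  let f' : {j // 0 < e j} → MvPolynomial (Pos w) K := fun j => sp w P (f j.1)
  obtain ⟨D, hDf, hDE, hDφ⟩ := exists_SNData w' (fun v => v.2) f' (fun j => e j.1)
    (fun j => j.2) (fun j => sp_hom w P (hhom j.1)) hcard hsnc
  have hf'0 : ∀ j, f' j ≠ 0 := fun j => by rw [← hDf]; exact D.hf j
  have hfj0 : ∀ j, sp w P (f j) ≠ 0 := by
    intro j
    by_cases hj : 0 < e j
    · exact hf'0 ⟨j, hj⟩
    · have h0 : e j = 0 := by omega
      have h1 := hhom j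
      rw [h0] at h1
      rw [sp_zero w P h1]
      intro h2
      exact hne j h0 (C_injective _ _ (by rw [h2, map_zero]))
  obtain ⟨k, g, hg0, hg⟩ := hfe
  rw [hs₀'] at hg
  -- specialization
  have h1 := congrArg (sp w P) hg
  simp only [map_mul, map_pow, map_add, sp_C, act_sp w P g hg0, dvg_sp w P g hg0] at h1
  rw [sp_zero w P hβ] at h1
  set g' : Pos w → MvPolynomial (Pos w) K := fun v => sp w P (g v.1) with hg'
  -- the product
  let c' : K := algebraMap ℂ K c * ∏ j : {j // ¬ 0 < e j}, (aeval P (f j.1)) ^ m j.1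
  have hc' : c' ≠ 0 := by
    refine mul_ne_zero ?_ (Finset.prod_ne_zero_iff.mpr fun j _ => pow_ne_zero _
      (hne j.1 (by have := j.2; omega)))
    intro h
    exact hc ((algebraMap ℂ K).injective (by rw [h, map_zero]))
  have h2 : sp w P (∏ j, f j ^ m j) * C (algebraMap ℂ K c) =
      C c' * ∏ j : {j // 0 < e j}, D.f j ^ m j.1 := by
    rw [map_prod, hDf, ← Fintype.prod_subtype_mul_prod_subtype (fun j => 0 < e j)]
    have h3 : ∏ j : {j // ¬ 0 < e j}, sp w P (f j.1 ^ m j.1) =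
        C (∏ j : {j // ¬ 0 < e j}, (aeval P (f j.1)) ^ m j.1) := by
      rw [map_prod]
      refine Finset.prod_congr rfl fun j _ => ?_
      have h0 : e j.1 = 0 := by have := j.2; omega
      have h4 := hhom j.1
      rw [h0] at h4
      rw [map_pow, sp_zero w P h4, C_pow]
    rw [h3]
    simp only [map_pow, c', map_mul]
    ring
  have h3 : C (algebraMap ℂ K c) * ∏ j, sp w P (f j) ^ m j =
      C c' * ∏ j : {j // 0 < e j}, D.f j ^ m j.1 := by
    rw [← h2, map_prod]
    simp only [map_pow]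
    ring
  simp only [map_prod, map_pow] at h1
  rw [h3] at h1
  have hs₀k : algebraMap ℂ K s₀ - k ≠ 0 := by
    have h4 : algebraMap ℂ K s₀ - k = algebraMap ℂ K (s₀ - k) := by
      rw [map_sub, map_natCast]
    rw [h4]
    intro h5
    have h6 : s₀ - k = 0 := (algebraMap ℂ K).injective (by rw [h5, map_zero])
    have h7 : s₀ = k := sub_eq_zero.mp h6
    rw [hs₀, div_eq_iff hd'] at h7
    have h8 : ((W + k * d : ℕ) : ℂ) = 0 := by
      push_cast
      linear_combination -h7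
    have h9 : W + k * d = 0 := by exact_mod_cast h8
    omega
  have h4 : C (aeval P β) * (C c' * ∏ j : {j // 0 < e j}, D.f j ^ m j.1) ^
      (k + 1) = (C c' * ∏ j : {j // 0 < e j}, D.f j ^ m j.1) * dvg g' +
      C (algebraMap ℂ K s₀ - k) * act g' (C c' * ∏ j : {j // 0 < e j}, D.f j ^ m j.1) := by
    rw [h1]
    simp only [map_sub, map_natCast]
  have h5 := isDiv_of_fe D (fun j => m j.1) (fun j => hm j.1) c' hc' _ _ k hs₀k g' h4
  have h6 : aeval P β * c' ^ k = 0 := by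
    refine core w' D (fun j => e j.1) (fun j => j.2) hDE (fun i g => by rw [hDφ, hDf])
      (fun j => by rw [hDf]; exact sp_hom w P (hhom j.1)) _ ?_ _ ?_ ?_ ?_ _ h5
    · -- the weights
      have h7 : (∑ v : Pos w, w' v) = W := by
        rw [hW]
        exact (sum_pos w w (fun v hv => hv)).symm
      rw [h7]
      have h8 : ∑ j : {j // 0 < e j}, m j.1 * e j.1 = d := by
        rw [hdd, ← Fintype.sum_subtype_add_sum_subtype (fun j => 0 < e j)]
        have : ∑ j : {j // ¬ 0 < e j}, m j.1 * e j.1 = 0 :=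
          Finset.sum_eq_zero fun j _ => by
            have : e j.1 = 0 := by have := j.2; omega
            rw [this, mul_zero]
        rw [this, add_zero]
      have h9 : ∑ j : {j // 0 < e j}, -algebraMap ℂ K s₀ * (m j.1 : K) * (e j.1 : K) =
          -algebraMap ℂ K s₀ * (d : K) := by
        rw [← h8]
        push_cast
        rw [Finset.mul_sum]
        exact Finset.sum_congr rfl fun j _ => by ring
      rw [h9]
      have h10 : -algebraMap ℂ K s₀ * (d : K) = algebraMap ℂ K (-s₀ * d) := by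
        rw [map_mul, map_neg, map_natCast]
      rw [h10, hs₀]
      have h11 : -(-(W : ℂ) / d) * d = W := by field_simp
      rw [h11, map_natCast]
    · intro j n h7
      have h8 : -algebraMap ℂ K s₀ * (m j.1 : K) + n = algebraMap ℂ K (-s₀ * m j.1 + n) := by
        rw [map_add, map_mul, map_neg, map_natCast, map_natCast]
      rw [h8] at h7
      have h9 : -s₀ * m j.1 + n = 0 := (algebraMap ℂ K).injective (by rw [h7, map_zero])
      rw [hs₀] at h9
      have h10 : ((W * m j.1 + n * d : ℕ) : ℂ) = 0 := by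
        push_cast
        field_simp at h9
        linear_combination h9
      have h11 : W * m j.1 + n * d = 0 := by exact_mod_cast h10
      have h12 : 0 < W * m j.1 := Nat.mul_pos hWpos (hm j.1)
      omega
    · rw [hDf]
      exact hdep
    · intro j
      rw [hDf]
      have h7 := sp_hom w P (hhom j.1)
      rw [constantCoeff_eq]
      by_contra hne
      have := h7 hne
      rw [map_zero] at this
      have := j.2
      omega
  exact (mul_eq_zero.mp h6).resolve_right (pow_ne_zero _ hc')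

end core

/-- `HP` with a polynomial `β` in the place of `1`. -/
def HPB {V : Type} (w : V → ℕ) (d : ℕ) (G : MvPolynomial V ℂ) (e0 : ℂ) (β : MvPolynomial V ℂ) :
    Prop :=
  ∃ S : Set (ℕ → MvPolynomial V ℂ →ₗ[ℂ] ℂ),
    (∀ c ∈ S, ∀ (m : ℕ) h, (∀ a ≤ m * d, weightedHomogeneousComponent w a h = 0) → c m h = 0) ∧
    (∀ c ∈ S, ∀ (m : ℕ) h, c (m + 1) (G * h) = ((m : ℂ) - e0) * c m h) ∧
    (∀ c ∈ S, ∀ i, ∃ c' ∈ S, ∀ (m : ℕ) h,
      c m (pderiv i h) - c (m + 1) (pderiv i G * h) = c' m h) ∧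
    (∀ c ∈ S, ∀ i, ∃ c' ∈ S, ∀ (m : ℕ) h, c m (X i * h) = c' m h) ∧
    ∃ c ∈ S, c 0 β ≠ 0

section func
variable {V : Type} [Fintype V] [DecidableEq V] (w : V → ℕ) (d : ℕ) (G : MvPolynomial V ℂ) (e0 : ℂ)
  (β : MvPolynomial V ℂ)

/-- The functional. -/
theorem exists_functionalB (hG : IsWeightedHomogeneous w G d)
    (hβ : IsWeightedHomogeneous w β 0)
    (hne : ∀ (k : ℕ) (g : V → MvPolynomial V ℂ), (∀ v, w v = 0 → g v = 0) →
      β * G ^ (k + 1) ≠ G * dvg g + C (e0 - k) * act g G) :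
    ∃ Λ : (ℕ →₀ MvPolynomial V ℂ) →ₗ[ℂ] ℂ, Λ (Finsupp.single 0 β) ≠ 0 ∧
      ∀ x ∈ Rset w d G e0, Λ x = 0 := by
  have h1 : Finsupp.single 0 β ∉ Submodule.span ℂ (Rset w d G e0) := by
    intro h
    obtain ⟨N, hN⟩ := Phi_rel w d G e0 hG _ h
    obtain ⟨g, hg, h2⟩ := hN N le_rfl
    refine hne N g hg ?_
    rw [← h2, Phi_single, Nat.sub_zero]
    have h3 : IsWeightedHomogeneous w (G ^ (N + 1) * β) ((N + 1) * d) := by
      have h4 := (hG.pow (N + 1)).mul hβ
      rwa [add_zero, smul_eq_mul] at h4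
    rw [h3.weightedHomogeneousComponent_same, mul_comm]
  obtain ⟨Λ, hΛ, hΛ2⟩ := Submodule.exists_le_ker_of_notMem h1
  exact ⟨Λ, hΛ, fun x hx => hΛ2 (Submodule.subset_span hx)⟩

/-- The period functionals. -/
theorem hp_ofB (hG : IsWeightedHomogeneous w G d)
    (hβ : IsWeightedHomogeneous w β 0)
    (hne : ∀ (k : ℕ) (g : V → MvPolynomial V ℂ), (∀ v, w v = 0 → g v = 0) →
      β * G ^ (k + 1) ≠ G * dvg g + C (e0 - k) * act g G) : HPB w d G e0 β := by
  obtain ⟨Λ, hΛ1, hΛ⟩ := exists_functionalB w d G e0 β hG hβ hne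
  let c0 : Fam V := fun m => (∏ i ∈ Finset.range m, ((i : ℂ) - e0)) •
    (Λ ∘ₗ (Finsupp.lsingle m : MvPolynomial V ℂ →ₗ[ℂ] (ℕ →₀ MvPolynomial V ℂ)))
  have hc0 : ∀ m h, c0 m h = (∏ i ∈ Finset.range m, ((i : ℂ) - e0)) * Λ (Finsupp.single m h) :=
    fun m h => rfl
  have hR1 : ∀ k h, Λ (Finsupp.single (k + 1) (G * h)) = Λ (Finsupp.single k h) := by
    intro k h
    have := hΛ _ (Or.inl ⟨k, h, rfl⟩)
    rw [map_sub, sub_eq_zero] at this
    exact this
  have hR2 : ∀ k a h, IsWeightedHomogeneous w h a → a ≠ k * d → Λ (Finsupp.single k h) = 0 :=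
    fun k a h h1 h2 => hΛ _ (Or.inr (Or.inl ⟨k, a, h, h1, h2, rfl⟩))
  have hR3 : ∀ k (g : V → MvPolynomial V ℂ), (∀ v, w v = 0 → g v = 0) →
      Λ (Finsupp.single k (dvg g)) + (e0 - k) * Λ (Finsupp.single (k + 1) (act g G)) = 0 := by
    intro k g hg
    have := hΛ _ (Or.inr (Or.inr ⟨k, g, hg, rfl⟩))
    rw [map_add, map_smul, smul_eq_mul] at this
    exact this
  have h1 : ∀ (m : ℕ) h, OrdGE w (m * d + 1) h → c0 m h = 0 := by
    intro m h hh
    rw [hc0]
    have : Λ (Finsupp.single m h) = 0 := by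
      have e := (finsum_eq_sum _ (weightedHomogeneousComponent_finsupp (w := w) h)).symm.trans
        (sum_weightedHomogeneousComponent w h)
      rw [← e]
      change (Λ ∘ₗ (Finsupp.lsingle m : MvPolynomial V ℂ →ₗ[ℂ] (ℕ →₀ MvPolynomial V ℂ))) _ = 0
      rw [map_sum]
      refine Finset.sum_eq_zero fun a _ => ?_
      by_cases ha : a = m * d
      · rw [hh a (by omega), map_zero]
      · exact hR2 m a _ (weightedHomogeneousComponent_isWeightedHomogeneous a h) ha
    rw [this, mul_zero]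
  have h2 : ∀ (m : ℕ) h, c0 (m + 1) (G * h) = ((m : ℂ) - e0) * c0 m h := by
    intro m h
    rw [hc0, hc0, hR1, Finset.prod_range_succ]
    ring
  have h3 : ∀ v, 0 < w v → Tv G v c0 = 0 := by
    intro v hv
    funext m
    refine LinearMap.ext fun h => ?_
    rw [Tv_apply, hc0, hc0, Finset.prod_range_succ]
    have h4 := hR3 m (Pi.single v h) (fun u hu => by
      rw [Pi.single_eq_of_ne]
      rintro rfl
      omega)
    have h5 : dvg (Pi.single v h) = pderiv v h := by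
      rw [dvg, Finset.sum_eq_single v]
      · rw [Pi.single_eq_same]
      · intro u _ hu
        rw [Pi.single_eq_of_ne hu, map_zero]
      · simp
    have h6 : act (Pi.single v h) G = pderiv v G * h := by
      rw [act, Finset.sum_eq_single v]
      · rw [Pi.single_eq_same, mul_comm]
      · intro u _ hu
        rw [Pi.single_eq_of_ne hu, zero_mul]
      · simp
    rw [h5, h6] at h4
    change _ = (0 : ℂ)
    linear_combination (∏ i ∈ Finset.range m, ((i : ℂ) - e0)) * h4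
  refine ⟨{c | InS w G c0 c}, ?_, ?_, ?_, ?_, ?_⟩
  · intro c hc m h hh
    exact InS.deg w d G hG h1 hc m h fun a ha => hh a (by omega)
  · intro c hc
    exact InS.e2 w G e0 h2 hc
  · intro c hc i
    exact ⟨Tv G i c, InS.Tpos w G h3 hc i, fun m h => rfl⟩
  · intro c hc i
    exact ⟨Xv i c, InS.X i c hc, fun m h => rfl⟩
  · refine ⟨c0, InS.base, ?_⟩
    rw [hc0]
    simpa using hΛ1

end func

theorem tB {V : Type} [Fintype V] (w : V → ℕ) (d : ℕ) (F G : MvPolynomial V ℂ) (e0 : ℂ)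
    (hd : 0 < d) (hF1 : ∀ a < d, weightedHomogeneousComponent w a F = 0)
    (hF2 : weightedHomogeneousComponent w d F = G) (he : e0 = -1 → ∀ v, w v < d)
    (H : MvPolynomial V ℂ) (hHP : HPB w d G e0 (weightedHomogeneousComponent w 0 H)) :
    PerH F e0 H := by
  obtain ⟨S, hS1, hS2, hS3, hS4, c₀, hc₀, hc₀1⟩ := hHP
  set F₁ := F - G with hF₁
  have hF : G + F₁ = F := by rw [hF₁]; ring
  have hOF : OrdGE w d F := hF1
  have hOF₁ : OrdGE w (d + 1) F₁ := by rw [hF₁, ← hF2]; exact ord_succ hOF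
  have hE1 : ∀ c ∈ S, ∀ h, hat d F₁ c 0 (F * h) = 0 := by
    intro c hc h
    rw [hat, hatN_apply, zero_mul, zero_add, Finset.sum_range_one]
    have h1 : c 0 (F * h) = 0 := by
      refine hS1 c hc 0 _ fun a ha => ?_
      have h2 := hOF.mul (OrdGE.of_zero (w := w) h)
      exact h2 a (by omega)
    simp [h1]
  have hE2 : ∀ c ∈ S, ∀ (m : ℕ) h, hat d F₁ c (m + 1) (F * h) = ((m : ℂ) - e0) * hat d F₁ c m h := by
    intro c hc m h
    set N := (m + 1) * d + 1 with hN
    rw [hat_eq hOF₁ (hS1 c hc) (m + 1) N le_rfl, hat_eq hOF₁ (hS1 c hc) m N (by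
      rw [hN]; nlinarith), ← hF, hatN_e2 (hS2 c hc), if_neg (Nat.succ_ne_zero _),
      van hOF₁ (hS1 c hc) (m + N) N (by rw [hN]; nlinarith), mul_zero, add_zero]
  have hD2 : ∀ c ∈ S, ∀ i, ∀ c' ∈ S, (∀ (m : ℕ) h,
      c m (pderiv i h) - c (m + 1) (pderiv i G * h) = c' m h) → ∀ (m : ℕ) h,
      hat d F₁ c m (pderiv i h) - hat d F₁ c (m + 1) (pderiv i F * h) = hat d F₁ c' m h := by
    intro c hc i c' hc' hcc m h
    set N := (m + 1) * d + 2 with hN
    rw [hat_eq hOF₁ (hS1 c hc) (m + 1) N (by omega), hat_eq hOF₁ (hS1 c hc) m N (by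
      rw [hN]; nlinarith), hat_eq hOF₁ (hS1 c' hc') m N (by rw [hN]; nlinarith), ← hF,
      hatN_d2 i hcc, if_neg (Nat.succ_ne_zero _),
      van hOF₁ (hS1 c hc) (m + N) (N - 1) (by
        rw [show N - 1 = (m + 1) * d + 1 by omega, hN]; nlinarith), mul_zero, sub_zero]
  refine ⟨{c | ∃ c' ∈ S, c = hat d F₁ c'}, ⟨?_, ?_, ?_, ?_, ?_⟩, hat d F₁ c₀, ⟨c₀, hc₀, rfl⟩, ?_⟩
  · rintro _ ⟨c, hc, rfl⟩ h
    exact hE1 c hc h
  · rintro _ ⟨c, hc, rfl⟩ m h
    exact hE2 c hc m h
  · rintro _ ⟨c, hc, rfl⟩ i h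
    by_cases h1 : e0 = -1
    · rw [hat, hatN_apply, zero_mul, zero_add, Finset.sum_range_one]
      have h2 : c 0 (pderiv i F * h) = 0 := by
        refine hS1 c hc 0 _ fun a ha => ?_
        have h3 : OrdGE w (d - w i) (pderiv i F) := OrdGE.pderiv i (hOF.mono (by
          have := he h1 i
          omega))
        have h4 := h3.mul (OrdGE.of_zero (w := w) h)
        exact h4 a (by have := he h1 i; omega)
      simp [h2]
    · obtain ⟨c', hc', hcc⟩ := hS3 c hc i
      have h2 := hD2 c hc i c' hc' hcc 0 (F * h)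
      rw [hE1 c' hc', Derivation.leibniz, smul_eq_mul, smul_eq_mul, map_add, hE1 c hc, zero_add,
        mul_left_comm, hE2 c hc, mul_comm h] at h2
      have h3 : (1 + e0) * hat d F₁ c 0 (pderiv i F * h) = 0 := by
        rw [← h2]
        push_cast
        ring
      rcases mul_eq_zero.1 h3 with h4 | h4
      · exact absurd (by linear_combination h4) h1
      · exact h4
  · rintro _ ⟨c, hc, rfl⟩ i
    obtain ⟨c', hc', hcc⟩ := hS3 c hc i
    exact ⟨_, ⟨c', hc', rfl⟩, hD2 c hc i c' hc' hcc⟩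
  · rintro _ ⟨c, hc, rfl⟩ i
    obtain ⟨c', hc', hcc⟩ := hS4 c hc i
    refine ⟨_, ⟨c', hc', rfl⟩, fun m h => ?_⟩
    rw [hat, hat, hatN_apply, hatN_apply]
    refine Finset.sum_congr rfl fun k _ => ?_
    rw [mul_left_comm (F₁ ^ k), hcc]
  · rw [hat, hatN_apply, zero_mul, zero_add, Finset.sum_range_one]
    have h1 : c₀ 0 (H - weightedHomogeneousComponent w 0 H) = 0 := by
      refine hS1 c₀ hc₀ 0 _ fun a ha => ?_
      have ha0 : a = 0 := by omega
      rw [ha0, map_sub,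
        (weightedHomogeneousComponent_isWeightedHomogeneous 0 H).weightedHomogeneousComponent_same,
        sub_self]
    rw [map_sub, sub_eq_zero] at h1
    have h2 : c₀ 0 H ≠ 0 := by
      rw [h1]
      exact hc₀1
    simpa using h2


theorem hbB {V J : Type} [Fintype V] [DecidableEq V] [Fintype J] [DecidableEq J]
    (w : V → ℕ) (f : J → MvPolynomial V ℂ) (e m : J → ℕ) (c : ℂ) (h : MvPolynomial V ℂ)
    (hcard : 2 ≤ Fintype.card (Pos w)) (hf : ∀ j, IsWeightedHomogeneous w (f j) (e j))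
    (hm : ∀ j, 0 < m j) (hc : c ≠ 0) (hh0 : h ≠ 0) (hh : IsWeightedHomogeneous w h 0)
    (hsnc : ∀ P : V → ℂ, aeval P h ≠ 0 → (SNCAt' f P ↔ ∃ v, 0 < w v ∧ P v ≠ 0))
    (β : MvPolynomial V ℂ) (hβ0 : β ≠ 0) (hβ : IsWeightedHomogeneous w β 0) :
    0 < ∑ j, m j * e j ∧
      HPB w (∑ j, m j * e j) (C c * ∏ j, f j ^ m j)
        (-((∑ v, w v : ℕ) : ℂ) / (∑ j, m j * e j : ℕ)) β := by
  classical
  have hne : ∃ v, 0 < w v := by
    have : 0 < Fintype.card (Pos w) := by omega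
    obtain ⟨v⟩ := Fintype.card_pos_iff.mp this
    exact ⟨v.1, v.2⟩
  obtain ⟨l, hl, hl2⟩ := gen_dep1 w hne h hh0 hh f e hf hsnc
  have hd : 0 < ∑ j, m j * e j := by
    obtain ⟨j, -⟩ := Function.ne_iff.mp hl
    exact lt_of_lt_of_le (Nat.mul_pos (hm j.1) j.2)
      (Finset.single_le_sum (f := fun j => m j * e j) (fun _ _ => Nat.zero_le _)
        (Finset.mem_univ j.1))
  have hG : IsWeightedHomogeneous w (C c * ∏ j, f j ^ m j) (∑ j, m j * e j) := by
    have h1 : IsWeightedHomogeneous w (∏ j, f j ^ m j) (∑ j, m j * e j) :=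
      IsWeightedHomogeneous.prod _ _ _ fun j _ => (hf j).pow (m j)
    have h2 := (isWeightedHomogeneous_C w c).mul h1
    rwa [zero_add] at h2
  refine ⟨hd, hp_ofB w _ _ _ β hG hβ fun k g hg heq => ?_⟩
  have h7 := root_coreB w (genP1 w) f e hf m hm c hc hd hcard
    (fun j hj => gen_ne1 w hne h hh0 hh f (fun P hP => (hsnc P hP).mpr) j
      (by rw [← hj]; exact hf j))
    (fun x hx => gen_snc1 w hne h hh0 hh f e (fun P hP => (hsnc P hP).mpr) x hx) ⟨l, hl, hl2⟩
    β hβ (-((∑ v, w v : ℕ) : ℂ) / (∑ j, m j * e j : ℕ)) rfl ⟨k, g, hg, heq⟩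
  rw [← atZero1_gen] at h7
  exact atZero1_ne w hβ0 hβ (gk_inj (h7.trans (map_zero _).symm))

/-- **CEN**: the periods of a weighted centre at the origin. -/
theorem t_CEN : S_CEN := by
  intro V J _ _ _ _ f w e g h HC m hm c hc H hH
  obtain ⟨β, hβd⟩ : ∃ β, β = weightedHomogeneousComponent w 0 H := ⟨_, rfl⟩
  have hβ0 : β ≠ 0 := by
    intro h0
    apply hH
    have h1 : coeff 0 β = coeff 0 H := by
      rw [hβd, coeff_weightedHomogeneousComponent, if_pos (by rw [map_zero])]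
    rw [h0, coeff_zero] at h1
    rw [eval_zero, constantCoeff_eq, ← h1]
  have hβ : IsWeightedHomogeneous w β 0 := by
    rw [hβd]
    exact weightedHomogeneousComponent_isWeightedHomogeneous 0 H
  obtain ⟨hd, hHP⟩ := hbB w g e m c h HC.card (fun j => (HC.low j).hom) hm hc HC.h_ne HC.hom
    HC.iff β hβ0 hβ
  refine ⟨hd, ?_⟩
  have htr : ∀ q : MvPolynomial V ℂ, trl 0 q = q := by
    intro q
    simp [trl]
  have hlow : LowC w (∑ j, m j * e j) (C c * ∏ j, f j ^ m j) (C c * ∏ j, g j ^ m j) := by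
    have h1 := LowC.prod (w := w) Finset.univ (e := fun j => m j * e j)
      (p := fun j => f j ^ m j) (q := fun j => g j ^ m j) (fun j _ => by
        have h2 := (HC.low j).pow (m j)
        rw [htr] at h2
        exact h2)
    have h2 := (LowC.C (w := w) c).mul h1
    rwa [zero_add] at h2
  refine tB w (∑ j, m j * e j) _ _ _ hd hlow.1 hlow.2 (fun he v => ?_) H (by
    rw [← hβd]; exact hHP)
  have hd0 : ((∑ j, m j * e j : ℕ) : ℂ) ≠ 0 := by exact_mod_cast hd.ne'
  have h3 : ((∑ v, w v : ℕ) : ℂ) = ((∑ j, m j * e j : ℕ) : ℂ) := by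
    rw [neg_div, neg_inj, div_eq_one_iff_eq hd0] at he
    exact he
  have h4 : ∑ v, w v = ∑ j, m j * e j := by exact_mod_cast h3
  rw [← h4]
  -- a second variable of positive weight
  obtain ⟨a, b, hab⟩ := Fintype.one_lt_card_iff.1 HC.card
  obtain ⟨u, hu, huv⟩ : ∃ u : V, 0 < w u ∧ u ≠ v := by
    by_cases h5 : a.1 = v
    · exact ⟨b.1, b.2, fun h6 => hab (Subtype.ext (h5.trans h6.symm))⟩
    · exact ⟨a.1, a.2, h5⟩
  have h5 : w v + w u ≤ ∑ v, w v := by
    rw [← Finset.sum_pair huv.symm]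
    exact Finset.sum_le_sum_of_subset (Finset.subset_univ _)
  omega

end Pool.Agent.L0h92.WT
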